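import Pool.Agent.N627.ND.Stm

/-!
# Project ND, F: weak colouring numbers
-/

set_option autoImplicit false

namespace Pool.Agent.N492.ND

open Pool.Agent.N627.ND

/-- the order -/
lemma order {V : Type} [Fintype V] [DecidableEq V] (G : SimpleGraph V) (r : ℕ) (P : ℝ)
    (h : ∀ S : Finset V, S.Nonempty → ∃ v ∈ S, ∃ U : Finset V, v ∉ U ∧
      (U.card : ℝ) ≤ P ∧ ∀ s ∈ S, s ≠ v → ∀ p : G.Walk v s, p.length ≤ r → ∃ x ∈ p.support, x ∈ U)
    (n : ℕ) : ∀ S : Finset V, S.card = n → ∃ f : V → ℕ, Set.InjOn f S ∧ (∀ v ∈ S, f v < n) ∧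
      ∀ v ∈ S, ∃ U : Finset V, v ∉ U ∧ (U.card : ℝ) ≤ P ∧
        ∀ s ∈ S, f s ≤ f v → s ≠ v → ∀ p : G.Walk v s, p.length ≤ r → ∃ x ∈ p.support, x ∈ U := by
  induction n with
  | zero =>
    intro S hS
    rw [Finset.card_eq_zero] at hS
    subst hS
    exact ⟨fun _ => 0, by simp, by simp, by simp⟩
  | succ n ih =>
    intro S hS
    obtain ⟨v₀, hv₀, U₀, h1, h2, h3⟩ := h S (Finset.card_pos.1 (by omega))
    obtain ⟨f, hf1, hf2, hf3⟩ := ih (S.erase v₀) (by rw [Finset.card_erase_of_mem hv₀, hS]; rfl)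
    have hne : ∀ s ∈ S, s ≠ v₀ → s ∈ S.erase v₀ := fun s hs h => Finset.mem_erase.2 ⟨h, hs⟩
    refine ⟨Function.update f v₀ n, ?_, ?_, ?_⟩
    · intro a ha b hb hab
      rw [Finset.mem_coe] at ha hb
      by_cases ha' : a = v₀
      · by_cases hb' : b = v₀
        · rw [ha', hb']
        · rw [ha', Function.update_self, Function.update_of_ne hb'] at hab
          have := hf2 b (hne b hb hb')
          omega
      · by_cases hb' : b = v₀
        · rw [hb', Function.update_self, Function.update_of_ne ha'] at hab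
          have := hf2 a (hne a ha ha')
          omega
        · rw [Function.update_of_ne ha', Function.update_of_ne hb'] at hab
          exact hf1 (hne a ha ha') (hne b hb hb') hab
    · intro v hv
      by_cases hv' : v = v₀
      · rw [hv', Function.update_self]
        omega
      · rw [Function.update_of_ne hv']
        have := hf2 v (hne v hv hv')
        omega
    · intro v hv
      by_cases hv' : v = v₀
      · subst hv'
        exact ⟨U₀, h1, h2, fun s hs _ hsv p hp => h3 s hs hsv p hp⟩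
      · obtain ⟨U, k1, k2, k3⟩ := hf3 v (hne v hv hv')
        refine ⟨U, k1, k2, fun s hs hle hsv p hp => ?_⟩
        have hs' : s ≠ v₀ := by
          intro hs'
          rw [hs', Function.update_self, Function.update_of_ne hv'] at hle
          have := hf2 v (hne v hv hv')
          omega
        rw [Function.update_of_ne hs', Function.update_of_ne hv'] at hle
        exact k3 s (hne s hs hs') hle hsv p hp

lemma wr_card {V : Type} [Fintype V] [DecidableEq V] (G : SimpleGraph V) (r : ℕ) (P : ℝ)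
    (hP : 0 ≤ P) (f : V → ℕ) (U : V → Finset V) (h1 : ∀ v, v ∉ U v)
    (h2 : ∀ v, ((U v).card : ℝ) ≤ P)
    (h3 : ∀ v s, f s ≤ f v → s ≠ v → ∀ p : G.Walk v s, p.length ≤ r → ∃ x ∈ p.support, x ∈ U v)
    (i : ℕ) (hi : i ≤ r) : ∀ v, ((WR G f i v).ncard : ℝ) ≤ (1 + P) ^ i := by
  classical
  induction i with
  | zero =>
    intro v
    have h : WR G f 0 v ⊆ {v} := by
      rintro u ⟨p, hp, -⟩
      rw [Set.mem_singleton_iff]
      exact (SimpleGraph.Walk.eq_of_length_eq_zero (Nat.le_zero.1 hp)).symm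
    have h' := Set.ncard_le_ncard h
    rw [Set.ncard_singleton] at h'
    rw [pow_zero]
    exact_mod_cast h'
  | succ i ih =>
    intro v
    have ih := ih (by omega)
    have hsub : WR G f (i + 1) v ⊆
        (({v} ∪ (U v).biUnion fun x => (WR G f i x).toFinset : Finset V) : Set V) := by
      rintro u ⟨p, hp, hu⟩
      rw [Finset.mem_coe, Finset.mem_union, Finset.mem_singleton, Finset.mem_biUnion]
      by_cases huv : u = v
      · exact Or.inl huv
      · right
        obtain ⟨x, hx, hxU⟩ := h3 v u (hu v p.start_mem_support) huv p (by omega)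
        refine ⟨x, hxU, ?_⟩
        rw [Set.mem_toFinset]
        refine ⟨p.dropUntil x hx, ?_, fun y hy => hu y (p.support_dropUntil_subset_support hx hy)⟩
        have hvx : v ≠ x := fun h => h1 v (by rw [← h] at hxU; exact hxU)
        have e1 : (p.takeUntil x hx).length ≠ 0 := fun h =>
          hvx (SimpleGraph.Walk.eq_of_length_eq_zero h)
        have e2 : (p.takeUntil x hx).length + (p.dropUntil x hx).length = p.length := by
          rw [← SimpleGraph.Walk.length_append, SimpleGraph.Walk.take_spec]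
        omega
    have hc1 := Set.ncard_le_ncard hsub
    rw [Set.ncard_coe_finset] at hc1
    have hc2 : (({v} ∪ (U v).biUnion fun x => (WR G f i x).toFinset : Finset V).card : ℝ) ≤
        1 + P * (1 + P) ^ i := by
      have e1 : ({v} ∪ (U v).biUnion fun x => (WR G f i x).toFinset : Finset V).card ≤
          1 + ∑ x ∈ U v, (WR G f i x).toFinset.card := by
        refine (Finset.card_union_le _ _).trans ?_
        rw [Finset.card_singleton]
        exact Nat.add_le_add_left Finset.card_biUnion_le _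
      have e2 : ((1 + ∑ x ∈ U v, (WR G f i x).toFinset.card : ℕ) : ℝ) ≤ 1 + P * (1 + P) ^ i := by
        push_cast
        have e3 : ∑ x ∈ U v, ((WR G f i x).toFinset.card : ℝ) ≤ ∑ x ∈ U v, (1 + P) ^ i := by
          refine Finset.sum_le_sum fun x _ => ?_
          rw [← Set.ncard_eq_toFinset_card']
          exact ih x
        rw [Finset.sum_const, nsmul_eq_mul] at e3
        have e4 : ((U v).card : ℝ) * (1 + P) ^ i ≤ P * (1 + P) ^ i :=
          mul_le_mul_of_nonneg_right (h2 v) (by positivity)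
        linarith
      exact le_trans (by exact_mod_cast e1) e2
    have hc3 : (1 : ℝ) ≤ (1 + P) ^ i := one_le_pow₀ (by linarith)
    calc ((WR G f (i + 1) v).ncard : ℝ) ≤ _ := by exact_mod_cast hc1
      _ ≤ 1 + P * (1 + P) ^ i := hc2
      _ ≤ (1 + P) ^ (i + 1) := by rw [pow_succ]; nlinarith

theorem f (hE : S_E) : S_F := by
  classical
  intro μ r ε hε
  obtain ⟨ε', hε'⟩ : ∃ ε' : ℝ, ε' = ε / (r + 1) := ⟨_, rfl⟩
  have hr : (0 : ℝ) < (r : ℝ) + 1 := by positivity
  have hε'0 : 0 < ε' := by rw [hε']; positivity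
  have hε'1 : ε' * r ≤ ε := by
    rw [hε', div_mul_eq_mul_div, div_le_iff₀ hr]
    nlinarith
  obtain ⟨C₀, hC₀⟩ := hE μ r ε' hε'0
  obtain ⟨C, hC, hCC⟩ : ∃ C : ℝ, 0 ≤ C ∧ C₀ ≤ C := ⟨max C₀ 0, le_max_right _ _, le_max_left _ _⟩
  refine ⟨(1 + C) ^ r, fun V _ G hG => ?_⟩
  obtain ⟨n, hn⟩ : ∃ n : ℝ, n = (Fintype.card V : ℝ) := ⟨_, rfl⟩
  have hn0 : 0 ≤ n := by rw [hn]; positivity
  obtain ⟨P, hP⟩ : ∃ P : ℝ, P = C * n ^ ε' := ⟨_, rfl⟩
  have hP0 : 0 ≤ P := by rw [hP]; positivity
  obtain ⟨f, hf1, -, hf3⟩ := order G r P (fun S hS => by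
    obtain ⟨v, hv, U, k1, k2, k3⟩ := hC₀ V G hG S hS
    refine ⟨v, hv, U, k1, k2.trans ?_, k3⟩
    rw [hP]
    refine mul_le_mul hCC ?_ (by positivity) hC
    refine Real.rpow_le_rpow (by positivity) ?_ hε'0.le
    rw [hn]
    exact_mod_cast Finset.card_le_univ S) _ Finset.univ rfl
  choose! U hU1 hU2 hU3 using hf3
  refine ⟨f, fun a b hab => hf1 (by simp) (by simp) hab, fun v => ?_⟩
  have h1 := wr_card G r P hP0 f U (fun v => hU1 v (Finset.mem_univ v))
    (fun v => hU2 v (Finset.mem_univ v))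
    (fun v s hs hsv p hp => hU3 v (Finset.mem_univ v) s (Finset.mem_univ s) hs hsv p hp)
    r le_rfl v
  refine h1.trans ?_
  have hn1 : 1 ≤ n := by
    rw [hn]
    exact_mod_cast Fintype.card_pos_iff.2 ⟨v⟩
  have h2 : 1 ≤ n ^ ε' := Real.one_le_rpow hn1 hε'0.le
  have h3 : 1 + P ≤ (1 + C) * n ^ ε' := by rw [hP]; nlinarith
  calc (1 + P) ^ r ≤ ((1 + C) * n ^ ε') ^ r := pow_le_pow_left₀ (by linarith) h3 r
    _ = (1 + C) ^ r * n ^ (ε' * r) := by
        rw [mul_pow, ← Real.rpow_natCast (n ^ ε') r, ← Real.rpow_mul hn0]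
    _ ≤ (1 + C) ^ r * n ^ ε := by
        refine mul_le_mul_of_nonneg_left ?_ (by positivity)
        exact Real.rpow_le_rpow_of_exponent_le hn1 hε'1
    _ = _ := by rw [hn]

end Pool.Agent.N492.ND
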